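import Pool.Agent.Y536.OQ.Stm0

/-! Project OQ: many odd permutations of order prime to `p`. -/

set_option autoImplicit false
set_option linter.unusedSectionVars false

namespace Pool.Agent.Y404.OQ.BIG

open Pool.Agent.Y536.OQ
open Finset Equiv.Perm

open scoped Nat

/-- the elements with a given cycle type -/
theorem ge_type {n p : ℕ} (m : Multiset ℕ) (hodd : Odd (m.sum + Multiset.card m))
    (hm : ¬ p ∣ m.lcm) :
    (univ.filter fun g : Equiv.Perm (Fin n) => g.cycleType = m).card ≤ oddc n p := by
  classical
  rw [← Fintype.card_subtype, ← Nat.card_eq_fintype_card]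
  unfold oddc
  apply Nat.card_le_card_of_injective (fun g : {g : Equiv.Perm (Fin n) // g.cycleType = m} =>
    (⟨g.1, ?_, ?_⟩ : {s : Equiv.Perm (Fin n) // Equiv.Perm.sign s = -1 ∧ ¬ p ∣ orderOf s}))
  · intro g h hgh
    exact Subtype.ext (congrArg
      (fun z : {s : Equiv.Perm (Fin n) // Equiv.Perm.sign s = -1 ∧ ¬ p ∣ orderOf s} => z.1) hgh)
  · rw [sign_of_cycleType, g.2]
    exact hodd.neg_one_pow
  · rw [← lcm_cycleType, g.2]
    exact hm

theorem done : S_BIG := by
  classical
  intro n p hp h2 hn
  have hp3 : 3 ≤ p := by
    have := hp.two_le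
    omega
  have key : ∀ (m : Multiset ℕ) (X : ℕ), Odd (m.sum + Multiset.card m) → ¬ p ∣ m.lcm →
      (univ.filter fun g : Equiv.Perm (Fin n) => g.cycleType = m).card * X = n ! → X ≤ 2 * n →
      n ! ≤ 2 * n * oddc n p := by
    intro m X h1 h2 h3 h4
    have h5 := ge_type (n := n) m h1 h2
    rw [← h3, mul_comm]
    exact Nat.mul_le_mul h4 h5
  have hsing : ∀ a : ℕ, 2 ≤ a → a ≤ n →
      (univ.filter fun g : Equiv.Perm (Fin n) => g.cycleType = {a}).card * ((n - a)! * a) = n ! := by
    intro a ha han
    have h := card_of_cycleType_mul_eq (Fin n) {a}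
    rw [if_pos (by simpa using ⟨han, ha⟩)] at h
    simpa [mul_assoc] using h
  rcases Nat.even_or_odd n with he | ho
  · by_cases hpn : p ∣ n
    · apply key {n - 2} ((n - (n - 2))! * (n - 2))
      · obtain ⟨k, hk⟩ := he
        refine ⟨k - 1, ?_⟩
        simp only [Multiset.sum_singleton, Multiset.card_singleton]
        omega
      · rw [Multiset.lcm_singleton, normalize_eq]
        intro h
        have h5 : p ∣ n - (n - 2) := Nat.dvd_sub hpn h
        have h6 : n - (n - 2) = 2 := by omega
        rw [h6] at h5
        exact h2 ((Nat.prime_dvd_prime_iff_eq hp Nat.prime_two).1 h5)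
      · exact hsing (n - 2) (by omega) (by omega)
      · have : n - (n - 2) = 2 := by omega
        rw [this, Nat.factorial_two]
        omega
    · apply key {n} ((n - n)! * n)
      · obtain ⟨k, hk⟩ := he
        refine ⟨k, ?_⟩
        simp only [Multiset.sum_singleton, Multiset.card_singleton]
        omega
      · rw [Multiset.lcm_singleton, normalize_eq]
        exact hpn
      · exact hsing n (by omega) le_rfl
      · rw [Nat.sub_self, Nat.factorial_zero]
        omega
  · by_cases hpn : p ∣ n - 1
    · -- type `(n - 2, 2)`
      have hm2 : (n - 2) ≠ 2 := by omega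
      apply key {n - 2, 2} (2 * (n - 2))
      · obtain ⟨k, hk⟩ := ho
        refine ⟨k + 1, ?_⟩
        simp only [Multiset.insert_eq_cons, Multiset.sum_cons, Multiset.sum_singleton,
          Multiset.card_cons, Multiset.card_singleton]
        omega
      · intro h
        have h3 : (({n - 2, 2} : Multiset ℕ)).lcm ∣ (n - 2) * 2 := by
          rw [Multiset.lcm_dvd]
          intro b hb
          simp only [Multiset.insert_eq_cons, Multiset.mem_cons, Multiset.mem_singleton] at hb
          rcases hb with rfl | rfl
          · exact Dvd.intro _ rfl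
          · exact Dvd.intro_left _ rfl
        rcases (Nat.Prime.dvd_mul hp).1 (h.trans h3) with h4 | h4
        · have h5 : p ∣ (n - 1) - (n - 2) := Nat.dvd_sub hpn h4
          have h6 : (n - 1) - (n - 2) = 1 := by omega
          rw [h6] at h5
          exact hp.one_lt.ne' (Nat.dvd_one.1 h5)
        · exact h2 ((Nat.prime_dvd_prime_iff_eq hp Nat.prime_two).1 h4)
      · have h := card_of_cycleType_mul_eq (Fin n) {n - 2, 2}
        have hcond : (({n - 2, 2} : Multiset ℕ)).sum ≤ Fintype.card (Fin n) ∧
            ∀ a ∈ ({n - 2, 2} : Multiset ℕ), 2 ≤ a := by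
          constructor
          · simp only [Multiset.insert_eq_cons, Multiset.sum_cons, Multiset.sum_singleton,
              Fintype.card_fin]
            omega
          · intro a ha
            simp only [Multiset.insert_eq_cons, Multiset.mem_cons, Multiset.mem_singleton] at ha
            omega
        rw [if_pos hcond] at h
        have hprod : ∏ a ∈ (({n - 2, 2} : Multiset ℕ)).toFinset,
            (({n - 2, 2} : Multiset ℕ).count a)! = 1 := by
          apply Finset.prod_eq_one
          intro a ha
          have hnd : (({n - 2, 2} : Multiset ℕ)).Nodup := by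
            simp [hm2]
          have := Multiset.nodup_iff_count_le_one.1 hnd a
          interval_cases h7 : ({n - 2, 2} : Multiset ℕ).count a <;> rfl
        rw [hprod, mul_one] at h
        have hs : (Fintype.card (Fin n) - (({n - 2, 2} : Multiset ℕ)).sum)! = 1 := by
          have : Fintype.card (Fin n) - (({n - 2, 2} : Multiset ℕ)).sum = 0 := by
            simp only [Multiset.insert_eq_cons, Multiset.sum_cons, Multiset.sum_singleton,
              Fintype.card_fin]
            omega
          rw [this]; rfl
        rw [hs, one_mul] at h
        have hpr : (({n - 2, 2} : Multiset ℕ)).prod = 2 * (n - 2) := by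
          simp only [Multiset.insert_eq_cons, Multiset.prod_cons, Multiset.prod_singleton]
          ring
        rw [hpr, Fintype.card_fin] at h
        exact h
      · omega
    · apply key {n - 1} ((n - (n - 1))! * (n - 1))
      · obtain ⟨k, hk⟩ := ho
        refine ⟨k, ?_⟩
        simp only [Multiset.sum_singleton, Multiset.card_singleton]
        omega
      · rw [Multiset.lcm_singleton, normalize_eq]
        exact hpn
      · exact hsing (n - 1) (by omega) (by omega)
      · have : n - (n - 1) = 1 := by omega
        rw [this, Nat.factorial_one]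
        omega

end Pool.Agent.Y404.OQ.BIG
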